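import Mathlib

namespace Pool.Agent.H329S

open Finset

section decode

variable {V : Type*} [DecidableEq V] {D : ℕ}

/-- The set of vertices visited by a coded walk. -/
def decode (ν : V → Fin D → V) : V → List (Fin D) → Finset V
  | v, [] => {v}
  | v, i :: c => insert v (decode ν (ν v i) c)

/-- Sets grown from `v` by adding neighbours one at a time. -/
inductive Grow (F : SimpleGraph V) (v : V) : Finset V → Prop
  | base : Grow F v {v}
  | step {W : Finset V} {x w : V} : Grow F v W → x ∈ W → F.Adj x w → w ∉ W →
      Grow F v (insert w W)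

lemma grow_mem {F : SimpleGraph V} {v : V} {W : Finset V} (h : Grow F v W) : v ∈ W := by
  induction h with
  | base => simp
  | step _ _ _ _ ih => exact mem_insert_of_mem ih

lemma decode_self (ν : V → Fin D → V) (v : V) (c : List (Fin D)) : v ∈ decode ν v c := by
  cases c <;> simp [decode]

lemma decode_detour {F : SimpleGraph V} (ν : V → Fin D → V)
    (hν : ∀ a b, F.Adj a b → ∃ i, ν a i = b) (x w : V) (hxw : F.Adj x w)
    (c : List (Fin D)) : ∀ v, x ∈ decode ν v c →
      ∃ c' : List (Fin D), c'.length = c.length + 2 ∧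
        decode ν v c' = insert w (decode ν v c) := by
  have key : ∀ c : List (Fin D), ∃ c' : List (Fin D), c'.length = c.length + 2 ∧
        decode ν x c' = insert w (decode ν x c) := by
    intro c
    obtain ⟨i, hi⟩ := hν x w hxw
    obtain ⟨j, hj⟩ := hν w x hxw.symm
    refine ⟨i :: j :: c, by simp, ?_⟩
    simp only [decode, hi, hj]
    rw [Finset.insert_comm, Finset.insert_eq_of_mem (decode_self ν x c)]
  induction c with
  | nil =>
    intro v hv
    simp only [decode, mem_singleton] at hv
    subst hv
    exact key []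
  | cons i c ih =>
    intro v hv
    by_cases hxv : x = v
    · subst hxv
      exact key (i :: c)
    · have hx : x ∈ decode ν (ν v i) c := by
        simp only [decode, mem_insert] at hv
        rcases hv with h | h
        · exact absurd h hxv
        · exact h
      obtain ⟨c', hl, hc'⟩ := ih (ν v i) hx
      refine ⟨i :: c', by simp [hl], ?_⟩
      simp only [decode, hc']
      rw [Finset.insert_comm]

lemma grow_code {F : SimpleGraph V} (ν : V → Fin D → V)
    (hν : ∀ a b, F.Adj a b → ∃ i, ν a i = b) {v : V} {W : Finset V} (h : Grow F v W) :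
    ∃ c : List (Fin D), c.length + 2 = 2 * W.card ∧ decode ν v c = W := by
  induction h with
  | base => exact ⟨[], by simp, by simp [decode]⟩
  | @step W x w hW hx hadj hw ih =>
    obtain ⟨c, hl, hc⟩ := ih
    obtain ⟨c', hl', hc'⟩ := decode_detour ν hν x w hadj c v (by rw [hc]; exact hx)
    refine ⟨c', ?_, by rw [hc', hc]⟩
    rw [card_insert_of_notMem hw]
    omega

end decode

section count

variable {V : Type*} [Fintype V] [DecidableEq V] {D : ℕ}

open Classical in
lemma card_grow_le {F : SimpleGraph V} (ν : V → Fin D → V)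
    (hν : ∀ a b, F.Adj a b → ∃ i, ν a i = b) (v : V) (m : ℕ) :
    (univ.filter (fun W : Finset V => Grow F v W ∧ W.card = m + 1)).card ≤ D ^ (2 * m) := by
  have hsub : (univ.filter (fun W : Finset V => Grow F v W ∧ W.card = m + 1)) ⊆
      (univ : Finset (List.Vector (Fin D) (2 * m))).image (fun c => decode ν v c.1) := by
    intro W hW
    simp only [mem_filter, mem_univ, true_and] at hW
    obtain ⟨c, hl, hc⟩ := grow_code ν hν hW.1
    simp only [mem_image, mem_univ, true_and]
    exact ⟨⟨c, by omega⟩, hc⟩
  calc _ ≤ _ := card_le_card hsub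
    _ ≤ (univ : Finset (List.Vector (Fin D) (2 * m))).card := card_image_le
    _ = D ^ (2 * m) := by rw [card_univ, card_vector, Fintype.card_fin]

/-- Edges of `F` inside `W`. -/
noncomputable def EW (F : SimpleGraph V) (W : Finset V) : Finset (Sym2 V) := by
  classical
  exact univ.filter (fun e => e ∈ F.edgeSet ∧ ∀ x ∈ e, x ∈ W)

lemma mem_EW {F : SimpleGraph V} {W : Finset V} {e : Sym2 V} :
    e ∈ EW F W ↔ e ∈ F.edgeSet ∧ ∀ x ∈ e, x ∈ W := by
  classical
  simp [EW]

/-- The labelling is constant on the edges inside `W`. -/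
def Mono (F : SimpleGraph V) (π : Sym2 V → Bool) (W : Finset V) : Prop :=
  ∃ b, ∀ e ∈ EW F W, π e = b

/-- Bad type sets. -/
def Typ (F : SimpleGraph V) (K : ℕ) (W : Finset V) : Prop :=
  W.Nonempty ∧ (∀ v ∈ W, Grow F v W) ∧
    ∀ v ∈ W, 2 * K ≤ {u | F.Adj v u ∧ u ∈ W}.ncard

end count

end Pool.Agent.H329S
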