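import Pool.Agent.H329S.Edges

namespace Pool.Agent.H329S

open Finset

variable {V : Type*} [Fintype V] [DecidableEq V]

open Classical in
/-- Splitting off a new vertex. -/
lemma mu_split (F : SimpleGraph V) (K : ℕ) (S : Finset V) (v : V) :
    mu F K S ≤ mu F K (insert v S) +
      ∑ W ∈ univ.filter (fun W : Finset V => Typ F K W ∧ v ∈ W ∧ W ⊆ insert v S),
        (univ.filter (fun π : Sym2 V → Bool => Good F K (S \ W) π ∧ Mono F π W)).card := by
  have hsub : univ.filter (fun π : Sym2 V → Bool => Good F K S π) ⊆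
      univ.filter (fun π : Sym2 V → Bool => Good F K (insert v S) π) ∪
      (univ.filter (fun W : Finset V => Typ F K W ∧ v ∈ W ∧ W ⊆ insert v S)).biUnion
        (fun W => univ.filter
          (fun π : Sym2 V → Bool => Good F K (S \ W) π ∧ Mono F π W)) := by
    intro π hπ
    simp only [mem_filter, mem_univ, true_and] at hπ
    by_cases hg : Good F K (insert v S) π
    · exact mem_union_left _ (by simpa using hg)
    · apply mem_union_right
      unfold Good at hg
      push Not at hg
      obtain ⟨W, hW, hWS, hm⟩ := hg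
      have hv : v ∈ W := by
        by_contra hv
        refine hπ W hW ?_ hm
        intro x hx
        rcases mem_insert.1 (hWS hx) with h | h
        · subst h; exact absurd hx hv
        · exact h
      rw [mem_biUnion]
      refine ⟨W, by simp [hW, hv, hWS], ?_⟩
      simp only [mem_filter, mem_univ, true_and]
      exact ⟨good_mono sdiff_subset hπ, hm⟩
  calc mu F K S ≤ _ := card_le_card hsub
    _ ≤ _ := card_union_le _ _
    _ ≤ _ := by
      apply Nat.add_le_add le_rfl
      exact card_biUnion_le

lemma mu_chain (F : SimpleGraph V) (K : ℕ) (N : ℕ)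
    (ih : ∀ S : Finset V, S.card < N → ∀ v ∉ S, mu F K S ≤ 2 * mu F K (insert v S))
    (S : Finset V) : ∀ T : Finset V, Disjoint S T → (S ∪ T).card ≤ N →
      mu F K S ≤ 2 ^ T.card * mu F K (S ∪ T) := by
  intro T
  induction T using Finset.induction_on with
  | empty => intro _ _; simp
  | @insert a T ha hT =>
    intro hd hc
    have hd' : Disjoint S T := hd.mono_right (subset_insert _ _)
    have haS : a ∉ S := fun h => (Finset.disjoint_left.1 hd) h (mem_insert_self _ _)
    have haU : a ∉ S ∪ T := by
      simp [haS, ha]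
    have hins : S ∪ insert a T = insert a (S ∪ T) := by
      ext x; simp
    rw [hins, card_insert_of_notMem haU] at hc
    have h1 := hT hd' (by omega)
    have h2 := ih (S ∪ T) (by omega) a haU
    rw [hins, card_insert_of_notMem ha, pow_succ]
    calc mu F K S ≤ 2 ^ T.card * mu F K (S ∪ T) := h1
      _ ≤ 2 ^ T.card * (2 * mu F K (insert a (S ∪ T))) := Nat.mul_le_mul le_rfl h2
      _ = _ := by ring

open Classical in
/-- The weight sum. -/
lemma weight_sum (F : SimpleGraph V) {D : ℕ} (K : ℕ) (hD : 1 ≤ D) (hK : 8 * D ^ 2 ≤ 2 ^ K)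
    (ν : V → Fin D → V) (hν : ∀ a b, F.Adj a b → ∃ i, ν a i = b) (v : V) (P : Finset V → Prop) :
    ∑ W ∈ univ.filter (fun W : Finset V => Typ F K W ∧ v ∈ W ∧ P W),
      ((2 : ℝ) / 2 ^ K) ^ W.card ≤ 1 / 2 := by
  set q : ℝ := 2 / 2 ^ K with hq
  have hq0 : 0 ≤ q := by positivity
  have hDr : (1 : ℝ) ≤ D := by exact_mod_cast hD
  have hq1 : q * (4 * (D : ℝ) ^ 2) ≤ 1 := by
    have : (8 : ℝ) * D ^ 2 ≤ 2 ^ K := by exact_mod_cast hK
    rw [hq, div_mul_eq_mul_div, div_le_one (by positivity)]
    linarith
  have h1 : ∑ W ∈ univ.filter (fun W : Finset V => Typ F K W ∧ v ∈ W ∧ P W), q ^ W.card ≤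
      ∑ m ∈ range (Fintype.card V), ∑ W ∈ univ.filter
        (fun W : Finset V => Grow F v W ∧ W.card = m + 1), q ^ W.card := by
    rw [← sum_biUnion]
    · apply sum_le_sum_of_subset_of_nonneg
      · intro W hW
        simp only [mem_filter, mem_univ, true_and] at hW
        rw [mem_biUnion]
        have hpos : 0 < W.card := card_pos.2 hW.1.1
        have hle : W.card ≤ Fintype.card V := card_le_univ W
        refine ⟨W.card - 1, by simp; omega, ?_⟩
        simp only [mem_filter, mem_univ, true_and]
        exact ⟨hW.1.2.1 v hW.2.1, by omega⟩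
      · intro _ _ _; positivity
    · intro m _ m' _ hmm
      rw [Function.onFun, Finset.disjoint_left]
      intro W hW hW'
      simp only [mem_filter, mem_univ, true_and] at hW hW'
      omega
  have h2 : ∀ m, ∑ W ∈ univ.filter
        (fun W : Finset V => Grow F v W ∧ W.card = m + 1), q ^ W.card ≤ (1 / 4 : ℝ) ^ (m + 1) := by
    intro m
    calc ∑ W ∈ univ.filter (fun W : Finset V => Grow F v W ∧ W.card = m + 1), q ^ W.card
        = ∑ W ∈ univ.filter (fun W : Finset V => Grow F v W ∧ W.card = m + 1), q ^ (m + 1) := by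
          apply sum_congr rfl
          intro W hW
          simp only [mem_filter, mem_univ, true_and] at hW
          rw [hW.2]
      _ = (univ.filter (fun W : Finset V => Grow F v W ∧ W.card = m + 1)).card * q ^ (m + 1) := by
          rw [sum_const, nsmul_eq_mul]
      _ ≤ (D : ℝ) ^ (2 * m) * q ^ (m + 1) := by
          apply mul_le_mul_of_nonneg_right _ (by positivity)
          exact_mod_cast card_grow_le ν hν v m
      _ ≤ (D : ℝ) ^ (2 * (m + 1)) * q ^ (m + 1) := by
          apply mul_le_mul_of_nonneg_right _ (by positivity)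
          exact pow_le_pow_right₀ hDr (by omega)
      _ = ((q * (4 * (D : ℝ) ^ 2)) / 4) ^ (m + 1) := by
          rw [pow_mul, ← mul_pow]; congr 1; ring
      _ ≤ (1 / 4 : ℝ) ^ (m + 1) := by
          apply pow_le_pow_left₀ (by positivity)
          linarith
  have h3 : ∀ n : ℕ, ∑ m ∈ range n, (1 / 4 : ℝ) ^ (m + 1) ≤ 1 / 2 - (1 / 2) * (1 / 4) ^ n := by
    intro n
    induction n with
    | zero => norm_num
    | succ n ihn =>
      rw [sum_range_succ]
      have : (0 : ℝ) < (1 / 4) ^ n := by positivity
      have e : (1 / 4 : ℝ) ^ (n + 1) = (1 / 4) ^ n * (1 / 4) := pow_succ _ _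
      rw [e]
      linarith
  have h4 := h3 (Fintype.card V)
  have h5 : (0 : ℝ) < (1 / 4) ^ (Fintype.card V) := by positivity
  calc _ ≤ _ := h1
    _ ≤ ∑ m ∈ range (Fintype.card V), (1 / 4 : ℝ) ^ (m + 1) := sum_le_sum (fun m _ => h2 m)
    _ ≤ 1 / 2 := by linarith

end Pool.Agent.H329S
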