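import Mathlib

/-!
# Inversions, inversion diameter, subdivisions
-/

namespace Pool.Agent.H329S

/-- `o` is an orientation of the graph `G`: `o u v` means that the edge `uv` is directed from `u`
to `v`; only edges are directed, and each edge is directed in exactly one way. -/
def IsOrientation {V : Type*} (G : SimpleGraph V) (o : V → V → Prop) : Prop :=
  (∀ u v, o u v → G.Adj u v) ∧ ∀ u v, G.Adj u v → (o u v ∧ ¬ o v u) ∨ (o v u ∧ ¬ o u v)

/-- The inversion of the vertex set `X`: all arcs with both ends in `X` are reversed. -/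
def invert {V : Type*} (o : V → V → Prop) (X : Set V) : V → V → Prop :=
  fun u v => (u ∈ X ∧ v ∈ X ∧ o v u) ∨ (¬ (u ∈ X ∧ v ∈ X) ∧ o u v)

/-- Any orientation of `G` can be turned into any other one by at most `t` successive
inversions. -/
def DiamLE {V : Type*} (G : SimpleGraph V) (t : ℕ) : Prop :=
  ∀ o₁ o₂ : V → V → Prop, IsOrientation G o₁ → IsOrientation G o₂ →
    ∃ L : List (Set V), L.length ≤ t ∧ L.foldl invert o₁ = o₂

/-- The inversion diameter of `G`: the least `t` such that any orientation of `G` can be turned
into any other one by at most `t` inversions. -/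
noncomputable def invDiam {V : Type*} (G : SimpleGraph V) : ℕ := sInf {t | DiamLE G t}

/-- The edges of `G`, each written as a pair `(u, v)` with `u < v`. -/
abbrev Edg {V : Type*} [LinearOrder V] (G : SimpleGraph V) : Type _ :=
  {p : V × V // p.1 < p.2 ∧ G.Adj p.1 p.2}

/-- The vertices of the subdivision of `G` in which every edge `uv`, `u < v`, gets `k u v` new
internal vertices: the vertices of `G` and, for every edge, its internal vertices. -/
abbrev SubV {V : Type*} [LinearOrder V] (G : SimpleGraph V) (k : V → V → ℕ) : Type _ :=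
  V ⊕ (Σ e : Edg G, Fin (k e.1.1 e.1.2))

/-- The `i`-th vertex of the path replacing the edge `e = (u, v)`: vertex `0` is `u`, vertices
`1, …, k u v` are the new internal vertices, the next vertex is `v`. -/
def pt {V : Type*} [LinearOrder V] (G : SimpleGraph V) (k : V → V → ℕ) (e : Edg G) (i : ℕ) :
    SubV G k :=
  if i = 0 then Sum.inl e.1.1
  else if h : i - 1 < k e.1.1 e.1.2 then Sum.inr ⟨e, ⟨i - 1, h⟩⟩
  else Sum.inl e.1.2

/-- The subdivision of `G` in which every edge `uv`, `u < v`, is replaced by a path of length
`k u v + 1` from `u` to `v`. -/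
def subdiv {V : Type*} [LinearOrder V] (G : SimpleGraph V) (k : V → V → ℕ) :
    SimpleGraph (SubV G k) :=
  SimpleGraph.fromRel (fun x y => ∃ e : Edg G, ∃ i : ℕ, i ≤ k e.1.1 e.1.2 ∧
    x = pt G k e i ∧ y = pt G k e (i + 1))

/-- The neighbours `w` of `v` such that the edge `vw` is subdivided exactly once, that is,
replaced by a path of length `2`. -/
def onceNbrs {V : Type*} [LinearOrder V] (G : SimpleGraph V) (k : V → V → ℕ) (v : V) : Set V :=
  {w | G.Adj v w ∧ ((v < w ∧ k v w = 1) ∨ (w < v ∧ k w v = 1))}

end Pool.Agent.H329S
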