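import Pool.Agent.H329S.Core

namespace Pool.Agent.H329S

open Finset

variable {V : Type*} [Fintype V] [DecidableEq V]

/-- The graph of the edges of `F` inside `W`. -/
def inG (F : SimpleGraph V) (W : Finset V) : SimpleGraph V where
  Adj u v := F.Adj u v ∧ u ∈ W ∧ v ∈ W
  symm := ⟨fun _ _ h => ⟨h.1.symm, h.2.2, h.2.1⟩⟩
  loopless := ⟨fun _ h => F.loopless.irrefl _ h.1⟩

open Classical in
lemma card_EW {F : SimpleGraph V} {K : ℕ} {W : Finset V} (h : Typ F K W) :
    K * W.card ≤ (EW F W).card := by
  have h1 : (EW F W) = (inG F W).edgeFinset := by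
    ext e
    rw [mem_EW, SimpleGraph.mem_edgeFinset]
    induction e using Sym2.ind with
    | _ a b =>
      simp [inG]
  have h2 := (inG F W).sum_degrees_eq_twice_card_edges
  rw [← h1] at h2
  have h3 : ∑ v ∈ W, 2 * K ≤ ∑ v, (inG F W).degree v := by
    calc ∑ v ∈ W, 2 * K ≤ ∑ v ∈ W, (inG F W).degree v := by
          apply sum_le_sum
          intro v hv
          have := h.2.2 v hv
          rw [Set.ncard_eq_toFinset_card'] at this
          refine this.trans (card_le_card ?_)
          intro u hu
          simp only [Set.mem_toFinset, Set.mem_ofPred_eq] at hu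
          rw [SimpleGraph.mem_neighborFinset]
          exact ⟨hu.1, hv, hu.2⟩
      _ ≤ _ := sum_le_sum_of_subset (subset_univ _)
  rw [h2, sum_const, smul_eq_mul] at h3
  nlinarith

/-- No bad set inside `S` is constant. -/
def Good (F : SimpleGraph V) (K : ℕ) (S : Finset V) (π : Sym2 V → Bool) : Prop :=
  ∀ W, Typ F K W → W ⊆ S → ¬ Mono F π W

open Classical in
/-- Number of good labellings. -/
noncomputable def mu (F : SimpleGraph V) (K : ℕ) (S : Finset V) : ℕ :=
  (univ.filter (fun π : Sym2 V → Bool => Good F K S π)).card

lemma good_mono {F : SimpleGraph V} {K : ℕ} {S T : Finset V} (h : S ⊆ T) {π : Sym2 V → Bool}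
    (hg : Good F K T π) : Good F K S π := fun W hW hWS => hg W hW (hWS.trans h)

open Classical in
lemma indep (F : SimpleGraph V) (K : ℕ) (S W : Finset V) (hd : Disjoint S W) :
    (univ.filter (fun π : Sym2 V → Bool => Good F K S π ∧ Mono F π W)).card *
      2 ^ (EW F W).card ≤ 2 * mu F K S := by
  have hcard : (univ.filter (fun π : Sym2 V → Bool => Good F K S π ∧ Mono F π W)).card *
      2 ^ (EW F W).card =
      ((univ.filter (fun π : Sym2 V → Bool => Good F K S π ∧ Mono F π W)) ×ˢ
        (EW F W).powerset).card := by
    rw [card_product, card_powerset]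
  have hcard2 : 2 * mu F K S = ((univ.filter (fun π : Sym2 V → Bool => Good F K S π)) ×ˢ
      (univ : Finset Bool)).card := by
    rw [card_product, mu, card_univ, Fintype.card_bool, mul_comm]
  rw [hcard, hcard2]
  apply card_le_card_of_injOn (fun p : (Sym2 V → Bool) × Finset (Sym2 V) =>
    ((fun e => if e ∈ EW F W then decide (e ∈ p.2) else p.1 e : Sym2 V → Bool),
      decide (∃ e ∈ EW F W, p.1 e = true)))
  · rintro ⟨π, A⟩ hp
    simp only [coe_product, coe_filter, mem_univ, true_and, Set.mem_prod, Set.mem_ofPred_eq,
      coe_powerset] at hp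
    simp only [coe_product, coe_filter, mem_univ, true_and, Set.mem_prod, Set.mem_ofPred_eq,
      coe_univ, Set.mem_univ, and_true]
    intro W' hW' hsub ⟨b, hb⟩
    refine hp.1.1 W' hW' hsub ⟨b, ?_⟩
    intro e he
    have hne : e ∉ EW F W := by
      intro heW
      rw [mem_EW] at he heW
      induction e using Sym2.ind with
      | _ x y =>
        exact (Finset.disjoint_left.1 hd) (hsub (he.2 x (by simp))) (heW.2 x (by simp))
    have h5 := hb e he
    simpa only [hne, if_false] using h5
  · rintro ⟨π, A⟩ hp ⟨π', A'⟩ hp' heq
    simp only [coe_product, coe_filter, mem_univ, true_and, Set.mem_prod, Set.mem_ofPred_eq,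
      coe_powerset, Set.mem_preimage] at hp hp'
    simp only [Prod.mk.injEq] at heq
    obtain ⟨h1, h2⟩ := heq
    have val : ∀ π : Sym2 V → Bool, Mono F π W → ∀ e ∈ EW F W,
        π e = decide (∃ e ∈ EW F W, π e = true) := by
      rintro π ⟨b, hb⟩ e he
      rw [hb e he]
      cases b
      · symm
        rw [decide_eq_false_iff_not]
        rintro ⟨e', he', h⟩
        rw [hb e' he'] at h
        exact absurd h (by simp)
      · symm
        rw [decide_eq_true_iff]
        exact ⟨e, he, hb e he⟩
    have hA : A = A' := by
      ext e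
      by_cases he : e ∈ EW F W
      · have := congrFun h1 e
        simp only [he, if_true] at this
        have h3 : (e ∈ A) = (e ∈ A') := by
          simpa using this
        rw [h3]
      · constructor
        · intro h; exact absurd (hp.2 h) he
        · intro h; exact absurd (hp'.2 h) he
    have hπ : π = π' := by
      funext e
      by_cases he : e ∈ EW F W
      · rw [val π hp.1.2 e he, val π' hp'.1.2 e he, h2]
      · have := congrFun h1 e
        simpa only [he, if_false] using this
    rw [hA, hπ]

end Pool.Agent.H329S
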