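import Pool.Agent.H329S.Count

namespace Pool.Agent.H329S

open Finset

variable {V : Type*} [Fintype V] [DecidableEq V]

open Classical in
lemma mu_step (F : SimpleGraph V) {D : ℕ} (K : ℕ) (hD : 1 ≤ D) (hK : 8 * D ^ 2 ≤ 2 ^ K)
    (ν : V → Fin D → V) (hν : ∀ a b, F.Adj a b → ∃ i, ν a i = b) :
    ∀ N : ℕ, ∀ S : Finset V, S.card = N → ∀ v ∉ S, mu F K S ≤ 2 * mu F K (insert v S) := by
  intro N
  induction N using Nat.strong_induction_on with
  | _ N ih =>
    intro S hS v hv
    have hterm : ∀ W ∈ univ.filter (fun W : Finset V => Typ F K W ∧ v ∈ W ∧ W ⊆ insert v S),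
        ((univ.filter (fun π : Sym2 V → Bool =>
          Good F K (S \ W) π ∧ Mono F π W)).card : ℝ) ≤
          ((2 : ℝ) / 2 ^ K) ^ W.card * mu F K S := by
      intro W hW
      simp only [mem_filter, mem_univ, true_and] at hW
      obtain ⟨hT, hvW, hsub⟩ := hW
      have hTS : W.erase v ⊆ S := by
        intro x hx
        rw [mem_erase] at hx
        rcases mem_insert.1 (hsub hx.2) with h | h
        · exact absurd h hx.1
        · exact h
      have hun : (S \ W) ∪ W.erase v = S := by
        ext x
        simp only [mem_union, mem_sdiff, mem_erase]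
        constructor
        · rintro (h | h)
          · exact h.1
          · exact hTS (mem_erase.2 h)
        · intro h
          by_cases hx : x ∈ W
          · right
            exact ⟨fun h' => hv (h' ▸ h), hx⟩
          · left; exact ⟨h, hx⟩
      have hdis : Disjoint (S \ W) (W.erase v) := by
        rw [Finset.disjoint_left]
        intro x hx hx'
        exact (mem_sdiff.1 hx).2 (mem_erase.1 hx').2
      have hc := mu_chain F K N (fun S' hS' v' hv' => ih S'.card hS' S' rfl v' hv') (S \ W)
        (W.erase v) hdis (by rw [hun, hS])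
      rw [hun, card_erase_of_mem hvW] at hc
      have hi := indep F K (S \ W) W (by
        rw [Finset.disjoint_left]; intro x hx; exact (mem_sdiff.1 hx).2)
      have hE := card_EW hT
      have hpos : 0 < W.card := card_pos.2 hT.1
      have h2 : (univ.filter (fun π : Sym2 V → Bool =>
          Good F K (S \ W) π ∧ Mono F π W)).card * 2 ^ (K * W.card) ≤
          2 ^ W.card * mu F K S := by
        calc _ ≤ (univ.filter (fun π : Sym2 V → Bool =>
          Good F K (S \ W) π ∧ Mono F π W)).card * 2 ^ (EW F W).card :=
              Nat.mul_le_mul le_rfl (Nat.pow_le_pow_right (by norm_num) hE)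
          _ ≤ 2 * mu F K (S \ W) := hi
          _ ≤ 2 * (2 ^ (W.card - 1) * mu F K S) := Nat.mul_le_mul le_rfl hc
          _ = 2 ^ (W.card - 1 + 1) * mu F K S := by ring
          _ = 2 ^ W.card * mu F K S := by rw [Nat.sub_add_cancel hpos]
      have h3 : ((univ.filter (fun π : Sym2 V → Bool =>
          Good F K (S \ W) π ∧ Mono F π W)).card : ℝ) * 2 ^ (K * W.card) ≤
          2 ^ W.card * mu F K S := by exact_mod_cast h2
      rw [div_pow, ← pow_mul, div_mul_eq_mul_div, le_div_iff₀ (by positivity)]
      exact h3
    have hs := mu_split F K S v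
    have hw := weight_sum F K hD hK ν hν v (fun W => W ⊆ insert v S)
    have hs' : (mu F K S : ℝ) ≤ mu F K (insert v S) +
      ∑ W ∈ univ.filter (fun W : Finset V => Typ F K W ∧ v ∈ W ∧ W ⊆ insert v S),
        ((univ.filter (fun π : Sym2 V → Bool =>
          Good F K (S \ W) π ∧ Mono F π W)).card : ℝ) := by exact_mod_cast hs
    have h4 : ∑ W ∈ univ.filter (fun W : Finset V => Typ F K W ∧ v ∈ W ∧ W ⊆ insert v S),
        ((univ.filter (fun π : Sym2 V → Bool =>
          Good F K (S \ W) π ∧ Mono F π W)).card : ℝ) ≤ (1 / 2) * mu F K S := by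
      calc _ ≤ ∑ W ∈ univ.filter (fun W : Finset V => Typ F K W ∧ v ∈ W ∧ W ⊆ insert v S),
            ((2 : ℝ) / 2 ^ K) ^ W.card * mu F K S := sum_le_sum hterm
        _ = (∑ W ∈ univ.filter (fun W : Finset V => Typ F K W ∧ v ∈ W ∧ W ⊆ insert v S),
            ((2 : ℝ) / 2 ^ K) ^ W.card) * mu F K S := by rw [sum_mul]
        _ ≤ (1 / 2) * mu F K S := by
            refine mul_le_mul_of_nonneg_right ?_ (by positivity)
            refine le_trans (le_of_eq ?_) hw
            apply sum_congr _ (fun _ _ => rfl)
            ext W
            simp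
    have h5 : (mu F K S : ℝ) ≤ 2 * mu F K (insert v S) := by linarith
    exact_mod_cast h5

lemma exists_good (F : SimpleGraph V) {D : ℕ} (K : ℕ) (hD : 1 ≤ D) (hK : 8 * D ^ 2 ≤ 2 ^ K)
    (ν : V → Fin D → V) (hν : ∀ a b, F.Adj a b → ∃ i, ν a i = b) :
    ∃ π : Sym2 V → Bool, Good F K univ π := by
  classical
  have h : ∀ S : Finset V, 0 < mu F K S := by
    intro S
    induction S using Finset.induction_on with
    | empty =>
      unfold mu
      rw [card_pos]
      refine ⟨fun _ => true, ?_⟩
      simp only [mem_filter, mem_univ, true_and]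
      intro W hW hsub
      rw [subset_empty] at hsub
      exact absurd hW.1 (by simp [hsub])
    | @insert a S ha ih =>
      have := mu_step F K hD hK ν hν S.card S rfl a ha
      omega
  have h1 := h univ
  unfold mu at h1
  rw [card_pos] at h1
  obtain ⟨π, hπ⟩ := h1
  exact ⟨π, by simpa using hπ⟩

/-- `W` induces a `C`-colourable subgraph. -/
def Colb (F : SimpleGraph V) (C : ℕ) (W : Finset V) : Prop :=
  ∃ col : V → Fin C, ∀ u ∈ W, ∀ v ∈ W, F.Adj u v → col u ≠ col v

lemma colb_of_good (F : SimpleGraph V) (K : ℕ) (hK : 1 ≤ K) (π : Sym2 V → Bool)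
    (hg : Good F K univ π) : ∀ W : Finset V, Mono F π W → Colb F (2 * K) W := by
  classical
  intro W
  induction W using Finset.strongInduction with
  | _ W ih =>
    intro hm
    by_contra hnc
    have hCpos : 0 < 2 * K := by omega
    have sub : ∀ W' ⊂ W, Colb F (2 * K) W' := by
      intro W' hW'
      apply ih W' hW'
      obtain ⟨b, hb⟩ := hm
      refine ⟨b, fun e he => hb e ?_⟩
      rw [mem_EW] at he ⊢
      exact ⟨he.1, fun x hx => hW'.1 (he.2 x hx)⟩
    have hne : W.Nonempty := by
      rw [nonempty_iff_ne_empty]
      intro h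
      exact hnc ⟨fun _ => ⟨0, hCpos⟩, by simp [h]⟩
    refine hg W ⟨hne, ?_, ?_⟩ (subset_univ _) hm
    · intro v hv
      -- maximal grown subset
      have hex : ∃ A ∈ (W.powerset.filter (fun A => Grow F v A)), ∀ B ∈
          (W.powerset.filter (fun A => Grow F v A)), B.card ≤ A.card := by
        apply exists_max_image
        exact ⟨{v}, by simp [hv, Grow.base]⟩
      obtain ⟨A, hA, hmax⟩ := hex
      simp only [mem_filter, mem_powerset] at hA hmax
      by_cases hAW : A = W
      · rw [← hAW]; exact hA.2
      · exfalso
        have hvA := grow_mem hA.2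
        have hno : ∀ x ∈ A, ∀ w ∈ W, w ∉ A → ¬ F.Adj x w := by
          intro x hx w hw hwA hadj
          have h1 := hmax (insert w A) ⟨by
            intro y hy
            rcases mem_insert.1 hy with h | h
            · rw [h]; exact hw
            · exact hA.1 h, Grow.step hA.2 hx hadj hwA⟩
          rw [card_insert_of_notMem hwA] at h1
          omega
        have hAss : A ⊂ W := ⟨hA.1, fun h => hAW (Subset.antisymm hA.1 h)⟩
        have hBss : W \ A ⊂ W := by
          refine ⟨sdiff_subset, fun h => ?_⟩
          exact (mem_sdiff.1 (h hv)).2 hvA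
        obtain ⟨c1, hc1⟩ := sub A hAss
        obtain ⟨c2, hc2⟩ := sub (W \ A) hBss
        apply hnc
        refine ⟨fun x => if x ∈ A then c1 x else c2 x, ?_⟩
        intro x hx y hy hadj
        by_cases hxA : x ∈ A <;> by_cases hyA : y ∈ A
        · simp only [hxA, hyA, if_true]; exact hc1 x hxA y hyA hadj
        · exact absurd hadj (hno x hxA y hy hyA)
        · exact absurd hadj.symm (hno y hyA x hx hxA)
        · simp only [hxA, hyA, if_false]
          exact hc2 x (by simp [hx, hxA]) y (by simp [hy, hyA]) hadj
    · intro v hv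
      by_contra hlt
      push Not at hlt
      have hss : W.erase v ⊂ W := erase_ssubset hv
      obtain ⟨c, hc⟩ := sub _ hss
      -- a free colour
      have hfree : ∃ k : Fin (2 * K), ∀ u ∈ W, F.Adj v u → c u ≠ k := by
        by_contra hcon
        push Not at hcon
        have hsurj : (univ : Finset (Fin (2 * K))) ⊆
            (univ.filter (fun u => F.Adj v u ∧ u ∈ W)).image c := by
          intro k _
          obtain ⟨u, hu, hadj, hk⟩ := hcon k
          rw [mem_image]
          exact ⟨u, by simp [hadj, hu], hk⟩
        have h1 := card_le_card hsurj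
        have h2 := card_image_le (s := univ.filter (fun u => F.Adj v u ∧ u ∈ W)) (f := c)
        rw [card_univ, Fintype.card_fin] at h1
        rw [Set.ncard_eq_toFinset_card'] at hlt
        have h3 : (Set.toFinset {u | F.Adj v u ∧ u ∈ W}) =
            univ.filter (fun u => F.Adj v u ∧ u ∈ W) := by
          ext u; simp
        rw [h3] at hlt
        omega
      obtain ⟨k, hk⟩ := hfree
      apply hnc
      refine ⟨fun x => if x = v then k else c x, ?_⟩
      intro x hx y hy hadj
      by_cases hxv : x = v <;> by_cases hyv : y = v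
      · subst hxv; subst hyv; exact absurd hadj (F.loopless.irrefl _)
      · subst hxv
        simp only [if_true, hyv, if_false]
        exact (hk y hy hadj).symm
      · subst hyv
        simp only [if_true, hxv, if_false]
        exact hk x hx hadj.symm
      · simp only [hxv, hyv, if_false]
        exact hc x (mem_erase.2 ⟨hxv, hx⟩) y (mem_erase.2 ⟨hyv, hy⟩) hadj

end Pool.Agent.H329S
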