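import Pool.Agent.H329S.Rep

namespace Pool.Agent.H329S

open Finset

variable {ι : Type*} [Fintype ι] [DecidableEq ι]

/-- dot product -/
def dot (a b : ι → ZMod 2) : ZMod 2 := ∑ i, a i * b i

lemma dot_single (a : ι → ZMod 2) (i : ι) (c : ZMod 2) : dot a (Pi.single i c) = a i * c := by
  unfold dot
  rw [Finset.sum_eq_single i]
  · simp
  · intro j _ hj; simp [Pi.single_eq_of_ne hj]
  · intro h; exact absurd (mem_univ _) h

lemma dot_add (a b c : ι → ZMod 2) : dot a (b + c) = dot a b + dot a c := by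
  unfold dot
  rw [← sum_add_distrib]
  apply sum_congr rfl
  intro i _
  simp [mul_add]

lemma dot_comm (a b : ι → ZMod 2) : dot a b = dot b a := by
  unfold dot
  apply sum_congr rfl
  intro i _
  ring

lemma ne_zero_one (x : ZMod 2) (h : x ≠ 0) : x = 1 := by
  rcases zmod2 x with h' | h'
  · exact absurd h' h
  · exact h'

lemma two_sol (a b : ι → ZMod 2) (ha : a ≠ 0) (hb : b ≠ 0) (hab : a ≠ b) (α β : ZMod 2) :
    ∃ q : ι → ZMod 2, dot a q = α ∧ dot q b = β := by
  -- auxiliary: if `b` vanishes at a coordinate where `a` does not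
  have aux : ∀ (a b : ι → ZMod 2) (α β : ZMod 2), b ≠ 0 → (∃ i, a i = 1 ∧ b i = 0) →
      ∃ q : ι → ZMod 2, dot a q = α ∧ dot b q = β := by
    intro a b α β hb ⟨i, hai, hbi⟩
    obtain ⟨j, hj⟩ := Function.ne_iff.1 hb
    have hbj : b j = 1 := ne_zero_one _ hj
    refine ⟨Pi.single j β + Pi.single i (α + a j * β), ?_, ?_⟩
    · rw [dot_add, dot_single, dot_single, hai]
      have : a j * β + a j * β = 0 := CharTwo.add_self_eq_zero _
      linear_combination this
    · rw [dot_add, dot_single, dot_single, hbi, hbj]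
      ring
  obtain ⟨i, hi⟩ := Function.ne_iff.1 hab
  rcases zmod2 (a i) with h | h <;> rcases zmod2 (b i) with h' | h'
  · exact absurd (h.trans h'.symm) hi
  · obtain ⟨q, h1, h2⟩ := aux b a β α ha ⟨i, h', h⟩
    exact ⟨q, h2, by rw [dot_comm]; exact h1⟩
  · obtain ⟨q, h1, h2⟩ := aux a b α β hb ⟨i, h, h'⟩
    exact ⟨q, h1, by rw [dot_comm]; exact h2⟩
  · exact absurd (h.trans h'.symm) hi

lemma one_sol (hι : 3 ≤ Fintype.card ι) (a b : ι → ZMod 2) (ha : a ≠ 0) (α : ZMod 2) :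
    ∃ q : ι → ZMod 2, dot a q = α ∧ q ≠ 0 ∧ q ≠ b := by
  obtain ⟨i, hi⟩ := Function.ne_iff.1 ha
  have hai : a i = 1 := ne_zero_one _ hi
  have h2 : 2 ≤ (univ.erase i).card := by
    rw [card_erase_of_mem (mem_univ _), card_univ]; omega
  obtain ⟨j, hj, l, hl, hjl⟩ := Finset.one_lt_card.1 (by omega : 1 < (univ.erase i).card)
  have hji : j ≠ i := (mem_erase.1 hj).1
  have hli : l ≠ i := (mem_erase.1 hl).1
  refine ⟨Pi.single j 1 + (Pi.single l (1 + b l) + Pi.single i (α + a j + a l * (1 + b l))),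
    ?_, ?_, ?_⟩
  · rw [dot_add, dot_add, dot_single, dot_single, dot_single, hai]
    have h1 : a j + a j = 0 := CharTwo.add_self_eq_zero _
    have h3 : a l * (1 + b l) + a l * (1 + b l) = 0 := CharTwo.add_self_eq_zero _
    linear_combination h1 + h3
  · intro h
    have := congrFun h j
    simp [Pi.single_eq_of_ne hjl, Pi.single_eq_of_ne hji] at this
  · intro h
    have := congrFun h l
    simp only [Pi.add_apply, Pi.single_eq_of_ne hjl.symm, Pi.single_eq_same,
      Pi.single_eq_of_ne hli, zero_add, add_zero] at this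
    have h4 : (1 : ZMod 2) = 0 := by linear_combination this
    exact absurd h4 (by decide)

lemma path_ext (hι : 3 ≤ Fintype.card ι) (n : ℕ) : ∀ (a b : ι → ZMod 2), a ≠ 0 → b ≠ 0 →
    a ≠ b → ∀ ρ : ℕ → ZMod 2, ∃ q : ℕ → ι → ZMod 2, q 0 = a ∧ q (n + 2) = b ∧
      ∀ i ≤ n + 1, dot (q i) (q (i + 1)) = ρ i := by
  induction n with
  | zero =>
    intro a b ha hb hab ρ
    obtain ⟨x, h1, h2⟩ := two_sol a b ha hb hab (ρ 0) (ρ 1)
    refine ⟨fun i => if i = 0 then a else if i = 1 then x else b, by simp, by simp, ?_⟩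
    intro i hi
    have : i = 0 ∨ i = 1 := by omega
    rcases this with rfl | rfl
    · simpa using h1
    · simpa using h2
  | succ n ih =>
    intro a b ha hb hab ρ
    obtain ⟨x, h1, hx0, hxb⟩ := one_sol hι a b ha (ρ 0)
    obtain ⟨q, hq0, hqn, hq⟩ := ih x b hx0 hb hxb (fun i => ρ (i + 1))
    refine ⟨fun i => if i = 0 then a else q (i - 1), by simp, ?_, ?_⟩
    · simp only [Nat.add_eq_zero_iff]
      simpa using hqn
    · intro i hi
      rcases Nat.eq_zero_or_pos i with rfl | hpos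
      · simp [hq0, h1]
      · obtain ⟨j, rfl⟩ : ∃ j, i = j + 1 := ⟨i - 1, by omega⟩
        have := hq j (by omega)
        simpa using this

lemma path_ext2 (hι : 3 ≤ Fintype.card ι) (n : ℕ) (a b : ι → ZMod 2) (ha : a ≠ 0) (hb : b ≠ 0)
    (ρ : ℕ → ZMod 2) : ∃ q : ℕ → ι → ZMod 2, q 0 = a ∧ q (n + 3) = b ∧
      ∀ i ≤ n + 2, dot (q i) (q (i + 1)) = ρ i := by
  obtain ⟨x, h1, hx0, hxb⟩ := one_sol hι a b ha (ρ 0)
  obtain ⟨q, hq0, hqn, hq⟩ := path_ext hι n x b hx0 hb hxb (fun i => ρ (i + 1))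
  refine ⟨fun i => if i = 0 then a else q (i - 1), by simp, ?_, ?_⟩
  · simp only [Nat.add_eq_zero_iff]
    simpa using hqn
  · intro i hi
    rcases Nat.eq_zero_or_pos i with rfl | hpos
    · simp [hq0, h1]
    · obtain ⟨j, rfl⟩ : ∃ j, i = j + 1 := ⟨i - 1, by omega⟩
      have := hq j (by omega)
      simpa using this

end Pool.Agent.H329S
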