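import Pool.Agent.H329S.Exist
import Pool.Agent.H329S.Path

namespace Pool.Agent.H329S

open Finset

variable {V : Type*} [LinearOrder V]

/-- number of internal vertices, symmetric version -/
def kk (k : V → V → ℕ) (u v : V) : ℕ := if u < v then k u v else k v u

lemma kk_symm (k : V → V → ℕ) (u v : V) : kk k u v = kk k v u := by
  unfold kk
  rcases lt_trichotomy u v with h | h | h
  · rw [if_pos h, if_neg (not_lt.2 h.le)]
  · subst h; rfl
  · rw [if_neg (not_lt.2 h.le), if_pos h]

/-- The graph of the edges that are subdivided exactly once. -/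
def FG (G : SimpleGraph V) (k : V → V → ℕ) : SimpleGraph V where
  Adj u v := G.Adj u v ∧ kk k u v = 1
  symm := ⟨fun u v h => ⟨h.1.symm, by rw [kk_symm]; exact h.2⟩⟩
  loopless := ⟨fun _ h => G.loopless.irrefl _ h.1⟩

lemma pt_zero (G : SimpleGraph V) (k : V → V → ℕ) (e : Edg G) :
    pt G k e 0 = Sum.inl e.1.1 := by simp [pt]

lemma pt_last (G : SimpleGraph V) (k : V → V → ℕ) (e : Edg G) :
    pt G k e (k e.1.1 e.1.2 + 1) = Sum.inl e.1.2 := by simp [pt]

/-- The reduction: a representation of the original vertices by nonzero vectors with different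
vectors at the ends of the really subdivided edges extends to the subdivision. -/
lemma extend_rep {ι : Type*} [Fintype ι] [DecidableEq ι] (hι : 3 ≤ Fintype.card ι)
    (G : SimpleGraph V) (k : V → V → ℕ) (ρ : Sym2 (SubV G k) → ZMod 2)
    (S : V → ι → ZMod 2) (hS0 : ∀ v, S v ≠ 0)
    (hne : ∀ u v, (FG G k).Adj u v → S u ≠ S v)
    (hdot : ∀ u v, G.Adj u v → kk k u v = 0 →
      ∑ i, S u i * S v i = ρ s(Sum.inl u, Sum.inl v)) :
    ∃ s : SubV G k → ι → ZMod 2, ∀ x y, (subdiv G k).Adj x y →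
      ∑ i, s x i * s y i = ρ s(x, y) := by
  classical
  have hq : ∀ e : Edg G, ∃ q : ℕ → ι → ZMod 2, 0 < k e.1.1 e.1.2 →
      (q 0 = S e.1.1 ∧ q (k e.1.1 e.1.2 + 1) = S e.1.2 ∧
      ∀ i ≤ k e.1.1 e.1.2, dot (q i) (q (i + 1)) = ρ s(pt G k e i, pt G k e (i + 1))) := by
    intro e
    by_cases h0 : 0 < k e.1.1 e.1.2
    · obtain ⟨n, hn⟩ : ∃ n, k e.1.1 e.1.2 = n + 1 := ⟨_, (Nat.sub_add_cancel h0).symm⟩
      rcases Nat.eq_zero_or_pos n with hn0 | hn0
      · have hF : (FG G k).Adj e.1.1 e.1.2 :=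
          ⟨e.2.2, by unfold kk; rw [if_pos e.2.1, hn, hn0]⟩
        obtain ⟨q, h1, h2, h3⟩ := path_ext hι n (S e.1.1) (S e.1.2) (hS0 _) (hS0 _)
          (hne _ _ hF) (fun i => ρ s(pt G k e i, pt G k e (i + 1)))
        exact ⟨q, fun _ => ⟨h1, by rw [hn]; exact h2, fun i hi => h3 i (by omega)⟩⟩
      · obtain ⟨m, rfl⟩ : ∃ m, n = m + 1 := ⟨_, (Nat.sub_add_cancel hn0).symm⟩
        obtain ⟨q, h1, h2, h3⟩ := path_ext2 hι m (S e.1.1) (S e.1.2) (hS0 _) (hS0 _)
          (fun i => ρ s(pt G k e i, pt G k e (i + 1)))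
        exact ⟨q, fun _ => ⟨h1, by rw [hn]; exact h2, fun i hi => h3 i (by omega)⟩⟩
    · exact ⟨fun _ => 0, fun h => absurd h h0⟩
  choose q hq using hq
  let s : SubV G k → ι → ZMod 2 := fun x => match x with
    | Sum.inl v => S v
    | Sum.inr ⟨e, j⟩ => q e (j.1 + 1)
  have hspt : ∀ (e : Edg G) (i : ℕ), 0 < k e.1.1 e.1.2 → i ≤ k e.1.1 e.1.2 + 1 →
      s (pt G k e i) = q e i := by
    intro e i h0 hi
    unfold pt
    by_cases hi0 : i = 0
    · rw [if_pos hi0, hi0]
      exact (hq e h0).1.symm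
    · rw [if_neg hi0]
      by_cases hlt : i - 1 < k e.1.1 e.1.2
      · rw [dif_pos hlt]
        show q e (i - 1 + 1) = q e i
        rw [Nat.sub_add_cancel (Nat.pos_of_ne_zero hi0)]
      · rw [dif_neg hlt]
        have : i = k e.1.1 e.1.2 + 1 := by omega
        rw [this]
        exact (hq e h0).2.1.symm
  have hedge : ∀ (e : Edg G) (i : ℕ), i ≤ k e.1.1 e.1.2 →
      ∑ l, s (pt G k e i) l * s (pt G k e (i + 1)) l =
        ρ s(pt G k e i, pt G k e (i + 1)) := by
    intro e i hi
    by_cases h0 : 0 < k e.1.1 e.1.2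
    · rw [hspt e i h0 (by omega), hspt e (i + 1) h0 (by omega)]
      exact (hq e h0).2.2 i hi
    · have hi0 : i = 0 := by omega
      subst hi0
      have hk0 : k e.1.1 e.1.2 = 0 := by omega
      have h1 : pt G k e (0 + 1) = Sum.inl e.1.2 := by
        have := pt_last G k e
        rw [hk0] at this
        exact this
      rw [pt_zero, h1]
      exact hdot e.1.1 e.1.2 e.2.2 (by
        unfold kk
        rw [if_pos e.2.1]
        exact hk0)
  refine ⟨s, ?_⟩
  intro x y hxy
  rw [subdiv, SimpleGraph.fromRel_adj] at hxy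
  obtain ⟨_, ⟨e, i, hi, rfl, rfl⟩ | ⟨e, i, hi, rfl, rfl⟩⟩ := hxy
  · exact hedge e i hi
  · rw [Sym2.eq_swap, ← hedge e i hi]
    apply sum_congr rfl
    intro l _
    ring

lemma exists_numbering [Fintype V] (F : SimpleGraph V) [DecidableRel F.Adj] {D : ℕ}
    (hdeg : ∀ v, F.degree v ≤ D) :
    ∃ ν : V → Fin D → V, ∀ a b, F.Adj a b → ∃ i, ν a i = b := by
  classical
  refine ⟨fun v i => if h : i.1 < (F.neighborFinset v).card then
    ((F.neighborFinset v).equivFin.symm ⟨i.1, h⟩).1 else v, ?_⟩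
  intro a b hab
  have hb : b ∈ F.neighborFinset a := by rwa [SimpleGraph.mem_neighborFinset]
  let j := (F.neighborFinset a).equivFin ⟨b, hb⟩
  have hj : j.1 < D := lt_of_lt_of_le j.2 (hdeg a)
  refine ⟨⟨j.1, hj⟩, ?_⟩
  simp only [j.2, dif_pos]
  have : (⟨j.1, j.2⟩ : Fin (F.neighborFinset a).card) = j := rfl
  rw [this]
  exact congrArg Subtype.val (Equiv.symm_apply_apply (F.neighborFinset a).equivFin ⟨b, hb⟩)

lemma colb_greedy [Fintype V] (F : SimpleGraph V) {D : ℕ}
    (hdeg : ∀ v, (F.neighborSet v).ncard ≤ D) (W : Finset V) : Colb F (D + 1) W := by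
  classical
  induction W using Finset.induction_on with
  | empty => exact ⟨fun _ => 0, by simp⟩
  | @insert v W hv ih =>
    obtain ⟨c, hc⟩ := ih
    have hfree : ∃ k : Fin (D + 1), ∀ u, F.Adj v u → c u ≠ k := by
      by_contra hcon
      push Not at hcon
      have hsurj : (univ : Finset (Fin (D + 1))) ⊆
          (univ.filter (fun u => F.Adj v u)).image c := by
        intro k _
        obtain ⟨u, hadj, hk⟩ := hcon k
        rw [mem_image]
        exact ⟨u, by simp [hadj], hk⟩
      have h1 := card_le_card hsurj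
      have h2 := card_image_le (s := univ.filter (fun u => F.Adj v u)) (f := c)
      rw [card_univ, Fintype.card_fin] at h1
      have hlt := hdeg v
      rw [Set.ncard_eq_toFinset_card'] at hlt
      have h3 : (Set.toFinset (F.neighborSet v)) = univ.filter (fun u => F.Adj v u) := by
        ext u; simp
      rw [h3] at hlt
      omega
    obtain ⟨k, hk⟩ := hfree
    refine ⟨fun x => if x = v then k else c x, ?_⟩
    intro x hx y hy hadj
    by_cases hxv : x = v <;> by_cases hyv : y = v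
    · subst hxv; subst hyv; exact absurd hadj (F.loopless.irrefl _)
    · subst hxv
      simp only [if_true, hyv, if_false]
      exact (hk y hadj).symm
    · subst hyv
      simp only [if_true, hxv, if_false]
      exact hk x hadj.symm
    · simp only [hxv, hyv, if_false]
      exact hc x (mem_of_mem_insert_of_ne hx hxv) y (mem_of_mem_insert_of_ne hy hyv) hadj

/-- A good labelling with the right number of colours. -/
lemma good_labelling [Fintype V] (F : SimpleGraph V) {D : ℕ}
    (hdeg : ∀ v, (F.neighborSet v).ncard ≤ D) :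
    ∃ C : ℕ, C ≤ 2 ^ (Nat.clog 2 (min (D + 1) (2 * Nat.clog 2 (8 * D ^ 2)))) ∧
      ∃ π : Sym2 V → Bool, ∀ W : Finset V, Mono F π W → Colb F C W := by
  classical
  by_cases hcase : D + 1 ≤ 2 * Nat.clog 2 (8 * D ^ 2) ∨ D = 0
  · refine ⟨D + 1, ?_, fun _ => true, fun W _ => colb_greedy F hdeg W⟩
    rcases hcase with h | h
    · rw [min_eq_left h]
      exact Nat.le_pow_clog (by norm_num) _
    · subst h
      simp
  · push Not at hcase
    obtain ⟨h1, h2⟩ := hcase
    rw [min_eq_right h1.le]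
    refine ⟨2 * Nat.clog 2 (8 * D ^ 2), Nat.le_pow_clog (by norm_num) _, ?_⟩
    have hD : 1 ≤ D := Nat.one_le_iff_ne_zero.2 h2
    have hK : 8 * D ^ 2 ≤ 2 ^ (Nat.clog 2 (8 * D ^ 2)) := Nat.le_pow_clog (by norm_num) _
    have hK1 : 1 ≤ Nat.clog 2 (8 * D ^ 2) := by
      rcases Nat.eq_zero_or_pos (Nat.clog 2 (8 * D ^ 2)) with h0 | h0
      · rw [h0] at hK
        nlinarith
      · exact h0
    obtain ⟨ν, hν⟩ := exists_numbering F (D := D) (by
      intro v
      have := hdeg v
      rwa [Set.ncard_eq_toFinset_card', ← SimpleGraph.neighborFinset_def] at this)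
    obtain ⟨π, hπ⟩ := exists_good F _ hD hK ν hν
    exact ⟨π, fun W hW => colb_of_good F _ hK1 π hπ W hW⟩

theorem rep_subdiv [Fintype V] (G : SimpleGraph V) (k : V → V → ℕ) {D t : ℕ}
    (hdeg : ∀ v, ((FG G k).neighborSet v).ncard ≤ D) (ht : 1 ≤ t)
    (b : ℕ) (hb : b = Nat.clog 2 (min (D + 1) (2 * Nat.clog 2 (8 * D ^ 2))))
    (h : Rep G (Fin t)) :
    Rep (subdiv G k) (Fin t ⊕ ((Fin b ⊕ Fin b) ⊕ Fin 2)) := by
  classical
  intro ρ
  obtain ⟨C, hC, π₂, hπ₂⟩ := good_labelling (FG G k) hdeg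
  rw [← hb] at hC
  obtain ⟨s, hs⟩ := h (fun e => if e ∈ (FG G k).edgeSet then (if π₂ e then 1 else 0)
    else ρ (e.map Sum.inl))
  have hcol : ∀ z : Fin t → ZMod 2, Colb (FG G k) C (univ.filter (fun v => s v = z)) := by
    intro z
    apply hπ₂
    refine ⟨decide (∑ i, z i * z i = 1), ?_⟩
    intro e he
    rw [mem_EW] at he
    obtain ⟨he1, he2⟩ := he
    induction e using Sym2.ind with
    | _ u v =>
      have hu : s u = z := by simpa using he2 u (by simp)
      have hv : s v = z := by simpa using he2 v (by simp)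
      have hF : (FG G k).Adj u v := he1
      have := hs u v hF.1
      rw [hu, hv, if_pos he1] at this
      rw [this]
      cases π₂ s(u, v) <;> simp
  choose col hcol using hcol
  obtain ⟨β⟩ : Nonempty (Fin C ↪ (Fin b → ZMod 2)) := by
    apply Function.Embedding.nonempty_of_card_le
    simp [ZMod.card]
    exact hC
  let S : V → (Fin t ⊕ ((Fin b ⊕ Fin b) ⊕ Fin 2)) → ZMod 2 := fun v =>
    Sum.elim (s v) (Sum.elim (Sum.elim (β (col (s v) v)) (β (col (s v) v))) (fun _ => 1))
  have hSdot : ∀ u v, ∑ i, S u i * S v i = ∑ i, s u i * s v i := by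
    intro u v
    simp only [Fintype.sum_sum_type, S, Sum.elim_inl, Sum.elim_inr]
    have h1 := CharTwo.add_self_eq_zero
      (∑ i, β (col (s u) u) i * β (col (s v) v) i)
    have h2 : ∑ _i : Fin 2, (1 : ZMod 2) * 1 = 0 := by decide
    rw [h1, h2]
    ring
  apply extend_rep (S := S)
  · simp
    omega
  · intro v h0
    have := congrFun h0 (Sum.inr (Sum.inr 0))
    simp [S] at this
  · intro u v hF heq
    have h1 : s u = s v := by
      funext i
      have := congrFun heq (Sum.inl i)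
      simpa [S] using this
    have h2 : β (col (s u) u) = β (col (s v) v) := by
      funext i
      have := congrFun heq (Sum.inr (Sum.inl (Sum.inl i)))
      simpa [S] using this
    have h3 := β.injective h2
    rw [← h1] at h3
    exact hcol (s u) u (by simp) v (by simp [h1]) hF h3
  · intro u v hG hk0
    rw [hSdot, hs u v hG, if_neg]
    · simp
    · intro h'
      have : (FG G k).Adj u v := h'
      have h2 := this.2
      omega

theorem diam_subdiv [Fintype V] (G : SimpleGraph V) (k : V → V → ℕ) {D t : ℕ}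
    (hdeg : ∀ v, (onceNbrs G k v).ncard ≤ D) (h : DiamLE G t) :
    DiamLE (subdiv G k)
      (t + 2 * Nat.clog 2 (min (D + 1) (2 * Nat.clog 2 (8 * D ^ 2))) + 2) := by
  classical
  have hFG : ∀ v, (FG G k).neighborSet v = onceNbrs G k v := by
    intro v
    ext w
    constructor
    · rintro ⟨h1, h2⟩
      refine ⟨h1, ?_⟩
      unfold kk at h2
      rcases lt_trichotomy v w with h | h | h
      · rw [if_pos h] at h2; exact Or.inl ⟨h, h2⟩
      · exact absurd h h1.ne
      · rw [if_neg (not_lt.2 h.le)] at h2; exact Or.inr ⟨h, h2⟩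
    · rintro ⟨h1, h2⟩
      refine ⟨h1, ?_⟩
      unfold kk
      rcases h2 with ⟨h, h2⟩ | ⟨h, h2⟩
      · rw [if_pos h, h2]
      · rw [if_neg (not_lt.2 h.le), h2]
  have hrep := rep_of_diamLE G t h
  rcases Nat.eq_zero_or_pos t with ht | ht
  · -- no edges at all
    subst ht
    have hno : ∀ u v, ¬ G.Adj u v := by
      intro u v huv
      obtain ⟨s, hs⟩ := hrep (fun _ => 1)
      have := hs u v huv
      simp at this
    apply diamLE_of_rep
    intro π
    refine ⟨fun _ _ => 0, ?_⟩
    intro x y hxy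
    exfalso
    rw [subdiv, SimpleGraph.fromRel_adj] at hxy
    obtain ⟨_, ⟨e, _⟩ | ⟨e, _⟩⟩ := hxy
    · exact hno _ _ e.2.2
    · exact hno _ _ e.2.2
  · have h1 := rep_subdiv G k (D := D) (by intro v; rw [hFG v]; exact hdeg v) ht _ rfl hrep
    apply diamLE_of_rep
    refine rep_equiv _ (Fintype.equivFinOfCardEq ?_) h1
    simp
    ring

end Pool.Agent.H329S
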