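import Pool.Agent.H329S.Main

namespace Pool.Agent.H329S

open Finset

variable {V : Type*} [LinearOrder V]

/-- The exactly-once-subdivided edges inside the parts of a partition. -/
def FGh (G : SimpleGraph V) (k : V → V → ℕ) {p : ℕ} (h : V → Fin p) : SimpleGraph V where
  Adj u v := (FG G k).Adj u v ∧ h u = h v
  symm := ⟨fun _ _ hh => ⟨hh.1.symm, hh.2.symm⟩⟩
  loopless := ⟨fun _ hh => (FG G k).loopless.irrefl _ hh.1⟩

theorem rep_subdiv_part [Fintype V] (G : SimpleGraph V) (k : V → V → ℕ) {D t p : ℕ}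
    (h : V → Fin p)
    (hdeg : ∀ v, ((FGh G k h).neighborSet v).ncard ≤ D) (ht : 1 ≤ t)
    (b : ℕ) (hb : b = Nat.clog 2 (min (D + 1) (2 * Nat.clog 2 (8 * D ^ 2))))
    (hrep : Rep G (Fin t)) :
    Rep (subdiv G k)
      (Fin t ⊕ (Fin (Nat.clog 2 p) ⊕ ((Fin b ⊕ Fin b) ⊕ Fin 2))) := by
  classical
  intro ρ
  obtain ⟨C, hC, π₂, hπ₂⟩ := good_labelling (FGh G k h) hdeg
  rw [← hb] at hC
  obtain ⟨γ⟩ : Nonempty (Fin p ↪ (Fin (Nat.clog 2 p) → ZMod 2)) := by
    apply Function.Embedding.nonempty_of_card_le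
    simp only [Fintype.card_fin, Fintype.card_pi, ZMod.card, prod_const, card_univ]
    exact Nat.le_pow_clog (by norm_num) _
  let g : Sym2 V → ZMod 2 := Sym2.lift ⟨fun u v => ∑ i, γ (h u) i * γ (h v) i, by
    intro u v
    apply sum_congr rfl
    intro i _
    ring⟩
  have hg : ∀ u v, g s(u, v) = ∑ i, γ (h u) i * γ (h v) i := fun u v => rfl
  obtain ⟨s, hs⟩ := hrep (fun e => if e ∈ (FGh G k h).edgeSet then (if π₂ e then 1 else 0)
    else ρ (e.map Sum.inl) + g e)
  have hcol : ∀ z : Fin t → ZMod 2,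
      Colb (FGh G k h) C (univ.filter (fun v => s v = z)) := by
    intro z
    apply hπ₂
    refine ⟨decide (∑ i, z i * z i = 1), ?_⟩
    intro e he
    rw [mem_EW] at he
    obtain ⟨he1, he2⟩ := he
    induction e using Sym2.ind with
    | _ u v =>
      have hu : s u = z := by simpa using he2 u (by simp)
      have hv : s v = z := by simpa using he2 v (by simp)
      have hF : (FGh G k h).Adj u v := he1
      have := hs u v hF.1.1
      rw [hu, hv, if_pos he1] at this
      rw [this]
      cases π₂ s(u, v) <;> simp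
  choose col hcol using hcol
  obtain ⟨β⟩ : Nonempty (Fin C ↪ (Fin b → ZMod 2)) := by
    apply Function.Embedding.nonempty_of_card_le
    simp [ZMod.card]
    exact hC
  let S : V → (Fin t ⊕ (Fin (Nat.clog 2 p) ⊕ ((Fin b ⊕ Fin b) ⊕ Fin 2))) → ZMod 2 := fun v =>
    Sum.elim (s v) (Sum.elim (γ (h v))
      (Sum.elim (Sum.elim (β (col (s v) v)) (β (col (s v) v))) (fun _ => 1)))
  have hSdot : ∀ u v, ∑ i, S u i * S v i = ∑ i, s u i * s v i + g s(u, v) := by
    intro u v
    simp only [Fintype.sum_sum_type, S, Sum.elim_inl, Sum.elim_inr]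
    have h1 := CharTwo.add_self_eq_zero
      (∑ i, β (col (s u) u) i * β (col (s v) v) i)
    have h2 : ∑ _i : Fin 2, (1 : ZMod 2) * 1 = 0 := by decide
    rw [h1, h2, hg]
    ring
  apply extend_rep (S := S)
  · simp
    omega
  · intro v h0
    have := congrFun h0 (Sum.inr (Sum.inr (Sum.inr 0)))
    simp [S] at this
  · intro u v hF heq
    have h1 : s u = s v := by
      funext i
      have := congrFun heq (Sum.inl i)
      simpa [S] using this
    have h0 : γ (h u) = γ (h v) := by
      funext i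
      have := congrFun heq (Sum.inr (Sum.inl i))
      simpa [S] using this
    have h0' := γ.injective h0
    have h2 : β (col (s u) u) = β (col (s v) v) := by
      funext i
      have := congrFun heq (Sum.inr (Sum.inr (Sum.inl (Sum.inl i))))
      simpa [S] using this
    have h3 := β.injective h2
    rw [← h1] at h3
    exact hcol (s u) u (by simp) v (by simp [h1]) ⟨hF, h0'⟩ h3
  · intro u v hG hk0
    have hnot : s(u, v) ∉ (FGh G k h).edgeSet := by
      intro h'
      have h'' : (FGh G k h).Adj u v := h'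
      have h2 := h''.1.2
      omega
    rw [hSdot, hs u v hG, if_neg hnot]
    have h5 := CharTwo.add_self_eq_zero (g s(u, v))
    rw [add_assoc, h5, add_zero]
    simp

theorem diam_subdiv_part [Fintype V] (G : SimpleGraph V) (k : V → V → ℕ) {D t p : ℕ}
    (h : V → Fin p) (hdeg : ∀ v, {w | w ∈ onceNbrs G k v ∧ h w = h v}.ncard ≤ D)
    (hG : DiamLE G t) :
    DiamLE (subdiv G k) (t + Nat.clog 2 p +
      2 * Nat.clog 2 (min (D + 1) (2 * Nat.clog 2 (8 * D ^ 2))) + 2) := by
  classical
  have hFG : ∀ v, (FGh G k h).neighborSet v = {w | w ∈ onceNbrs G k v ∧ h w = h v} := by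
    intro v
    ext w
    constructor
    · rintro ⟨⟨h1, h2⟩, h3⟩
      refine ⟨⟨h1, ?_⟩, h3.symm⟩
      unfold kk at h2
      rcases lt_trichotomy v w with h | h | h
      · rw [if_pos h] at h2; exact Or.inl ⟨h, h2⟩
      · exact absurd h h1.ne
      · rw [if_neg (not_lt.2 h.le)] at h2; exact Or.inr ⟨h, h2⟩
    · rintro ⟨⟨h1, h2⟩, h3⟩
      refine ⟨⟨h1, ?_⟩, h3.symm⟩
      unfold kk
      rcases h2 with ⟨h, h2⟩ | ⟨h, h2⟩
      · rw [if_pos h, h2]
      · rw [if_neg (not_lt.2 h.le), h2]
  have hrep := rep_of_diamLE G t hG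
  rcases Nat.eq_zero_or_pos t with ht | ht
  · subst ht
    have hno : ∀ u v, ¬ G.Adj u v := by
      intro u v huv
      obtain ⟨s, hs⟩ := hrep (fun _ => 1)
      have := hs u v huv
      simp at this
    apply diamLE_of_rep
    intro π
    refine ⟨fun _ _ => 0, ?_⟩
    intro x y hxy
    exfalso
    rw [subdiv, SimpleGraph.fromRel_adj] at hxy
    obtain ⟨_, ⟨e, _⟩ | ⟨e, _⟩⟩ := hxy
    · exact hno _ _ e.2.2
    · exact hno _ _ e.2.2
  · have h1 := rep_subdiv_part G k h (D := D) (by intro v; rw [hFG v]; exact hdeg v) ht _ rfl hrep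
    apply diamLE_of_rep
    refine rep_equiv _ (Fintype.equivFinOfCardEq ?_) h1
    simp
    ring

end Pool.Agent.H329S
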