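import Pool.Agent.H329S.Defs

namespace Pool.Agent.H329S

open Finset

/-- Vector representation of all labellings. -/
def Rep {V : Type*} (G : SimpleGraph V) (ι : Type*) [Fintype ι] : Prop :=
  ∀ π : Sym2 V → ZMod 2, ∃ s : V → ι → ZMod 2, ∀ u v, G.Adj u v →
    ∑ i, s u i * s v i = π s(u, v)

variable {V : Type*}

open Classical in
/-- Parity of the number of sets containing both vertices. -/
noncomputable def cnt (L : List (Set V)) (u v : V) : ZMod 2 :=
  (L.map (fun X => if u ∈ X ∧ v ∈ X then (1 : ZMod 2) else 0)).sum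

lemma cnt_comm (L : List (Set V)) (u v : V) : cnt L u v = cnt L v u := by
  unfold cnt
  congr 1
  apply List.map_congr_left
  intro X _
  by_cases h1 : u ∈ X <;> by_cases h2 : v ∈ X <;> simp [h1, h2]

lemma zmod2 (x : ZMod 2) : x = 0 ∨ x = 1 := by
  fin_cases x
  · left; rfl
  · right; rfl

lemma foldl_invert (L : List (Set V)) : ∀ (o : V → V → Prop) (u v : V),
    L.foldl invert o u v ↔ ((cnt L u v = 1 ∧ o v u) ∨ (cnt L u v = 0 ∧ o u v)) := by
  classical
  induction L with
  | nil => intro o u v; simp [cnt]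
  | cons X L ih =>
    intro o u v
    rw [List.foldl_cons, ih]
    have hc : cnt (X :: L) u v = (if u ∈ X ∧ v ∈ X then (1 : ZMod 2) else 0) + cnt L u v := by
      unfold cnt
      simp
    rw [hc]
    by_cases hX : u ∈ X ∧ v ∈ X
    · have hX' : v ∈ X ∧ u ∈ X := hX.symm
      simp only [hX, and_self, if_true, invert, true_and, not_true_eq_false, false_and, or_false]
      have h11 : (1 : ZMod 2) + 1 = 0 := by decide
      rcases zmod2 (cnt L u v) with h | h <;> rw [h] <;> simp [h11]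
    · have hX' : ¬ (v ∈ X ∧ u ∈ X) := fun h => hX h.symm
      have e1 : invert o X v u ↔ o v u := by
        unfold invert
        constructor
        · rintro (h | h)
          · exact absurd ⟨h.1, h.2.1⟩ hX'
          · exact h.2
        · intro h; right; exact ⟨hX', h⟩
      have e2 : invert o X u v ↔ o u v := by
        unfold invert
        constructor
        · rintro (h | h)
          · exact absurd ⟨h.1, h.2.1⟩ hX
          · exact h.2
        · intro h; right; exact ⟨hX, h⟩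
      rw [e1, e2, if_neg hX, zero_add]

lemma exists_ofFn {α : Type*} {t : ℕ} (L : List α) (h : L.length = t) :
    ∃ X : Fin t → α, List.ofFn X = L := by
  subst h
  exact ⟨L.get, List.ofFn_get L⟩

lemma cnt_ofFn {t : ℕ} (X : Fin t → Set V) (s : V → Fin t → ZMod 2)
    (hs : ∀ u i, s u i = 1 ↔ u ∈ X i) (u v : V) :
    cnt (List.ofFn X) u v = ∑ i, s u i * s v i := by
  classical
  unfold cnt
  rw [List.map_ofFn, List.sum_ofFn]
  apply sum_congr rfl
  intro i _
  simp only [Function.comp]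
  rcases zmod2 (s u i) with h | h <;> rcases zmod2 (s v i) with h' | h'
  all_goals
    have a1 := hs u i
    have a2 := hs v i
    rw [h] at a1 ⊢
    rw [h'] at a2 ⊢
    simp at a1 a2
    simp [a1, a2]

lemma cnt_append_empty (L : List (Set V)) (n : ℕ) (u v : V) :
    cnt (L ++ List.replicate n ∅) u v = cnt L u v := by
  unfold cnt
  simp

lemma rep_of_diamLE (G : SimpleGraph V) (t : ℕ) (h : DiamLE G t) : Rep G (Fin t) := by
  classical
  intro π
  let o₁ : V → V → Prop := fun u v => G.Adj u v ∧ WellOrderingRel u v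
  let o₂ : V → V → Prop := fun u v =>
    (π s(u, v) = 1 ∧ o₁ v u) ∨ (π s(u, v) = 0 ∧ o₁ u v)
  have hasym : ∀ u v : V, WellOrderingRel u v → ¬ WellOrderingRel v u :=
    fun u v h1 h2 => asymm_of (WellOrderingRel) h1 h2
  have htri : ∀ u v : V, u ≠ v → WellOrderingRel u v ∨ WellOrderingRel v u := by
    intro u v huv
    rcases trichotomous_of (WellOrderingRel) u v with h1 | h1 | h1
    · exact Or.inl h1
    · exact absurd h1 huv
    · exact Or.inr h1
  have ho₁ : IsOrientation G o₁ := by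
    refine ⟨fun u v h => h.1, fun u v huv => ?_⟩
    rcases htri u v huv.ne with h1 | h1
    · left; exact ⟨⟨huv, h1⟩, fun h2 => hasym u v h1 h2.2⟩
    · right; exact ⟨⟨huv.symm, h1⟩, fun h2 => hasym v u h1 h2.2⟩
  have hex : ∀ u v, G.Adj u v → (o₁ u v ∧ ¬ o₁ v u) ∨ (o₁ v u ∧ ¬ o₁ u v) := ho₁.2
  have ho₂ : IsOrientation G o₂ := by
    constructor
    · rintro u v (⟨_, h⟩ | ⟨_, h⟩)
      · exact h.1.symm
      · exact h.1
    · intro u v huv
      have hsym : π s(v, u) = π s(u, v) := by rw [Sym2.eq_swap]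
      simp only [o₂, hsym]
      rcases zmod2 (π s(u, v)) with hp | hp <;> rw [hp] <;> rcases hex u v huv with hh | hh <;>
        simp [hh.1, hh.2]
  obtain ⟨L, hL, hfold⟩ := h o₁ o₂ ho₁ ho₂
  obtain ⟨X, hX⟩ := exists_ofFn (t := t) (L ++ List.replicate (t - L.length) ∅) (by simp; omega)
  refine ⟨fun u i => if u ∈ X i then 1 else 0, ?_⟩
  intro u v huv
  have hc := cnt_ofFn X (fun u i => if u ∈ X i then (1 : ZMod 2) else 0) (by
    intro u i; by_cases h : u ∈ X i <;> simp [h]) u v
  rw [hX, cnt_append_empty] at hc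
  rw [← hc]
  have hf : L.foldl invert o₁ u v ↔ o₂ u v := by rw [hfold]
  rw [foldl_invert] at hf
  simp only [o₂] at hf
  rcases zmod2 (cnt L u v) with h1 | h1 <;> rcases zmod2 (π s(u, v)) with h2 | h2 <;>
    rw [h1, h2] at hf ⊢ <;> exfalso <;> rcases hex u v huv with hh | hh <;>
    simp [hh.1, hh.2] at hf

lemma diamLE_of_rep (G : SimpleGraph V) (t : ℕ) (h : Rep G (Fin t)) : DiamLE G t := by
  classical
  intro o₁ o₂ ho₁ ho₂
  obtain ⟨s, hs⟩ := h (fun e => if ∃ u v, e = s(u, v) ∧ o₁ u v ∧ ¬ o₂ u v then 1 else 0)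
  refine ⟨List.ofFn (fun i => {u | s u i = 1}), by simp, ?_⟩
  funext u v
  apply propext
  rw [foldl_invert, cnt_ofFn _ s (by intro u i; simp) u v]
  by_cases huv : G.Adj u v
  · rw [hs u v huv]
    rcases ho₁.2 u v huv with h1 | h1 <;> rcases ho₂.2 u v huv with h2 | h2
    · rw [if_neg]
      · simp [h1.1, h2.1]
      · rintro ⟨a, b, hab, h3, h4⟩
        rw [Sym2.eq_iff] at hab
        rcases hab with ⟨rfl, rfl⟩ | ⟨rfl, rfl⟩
        · exact h4 h2.1
        · exact h1.2 h3
    · rw [if_pos ⟨u, v, rfl, h1.1, h2.2⟩]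
      simp [h1.2, h2.2]
    · rw [if_pos ⟨v, u, Sym2.eq_swap, h1.1, h2.2⟩]
      simp [h1.1, h2.1]
    · rw [if_neg]
      · simp [h1.2, h2.2]
      · rintro ⟨a, b, hab, h3, h4⟩
        rw [Sym2.eq_iff] at hab
        rcases hab with ⟨rfl, rfl⟩ | ⟨rfl, rfl⟩
        · exact h1.2 h3
        · exact h4 h2.1
  · have a1 : ¬ o₁ u v := fun h => huv (ho₁.1 u v h)
    have a2 : ¬ o₁ v u := fun h => huv (ho₁.1 v u h).symm
    have a3 : ¬ o₂ u v := fun h => huv (ho₂.1 u v h)
    simp [a1, a2, a3]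

lemma rep_equiv (G : SimpleGraph V) {ι κ : Type*} [Fintype ι] [Fintype κ] (e : ι ≃ κ)
    (h : Rep G ι) : Rep G κ := by
  intro π
  obtain ⟨s, hs⟩ := h π
  refine ⟨fun u j => s u (e.symm j), fun u v huv => ?_⟩
  rw [← hs u v huv]
  exact Equiv.sum_comp e.symm (fun i => s u i * s v i)

lemma rep_mono (G : SimpleGraph V) {t t' : ℕ} (htt : t ≤ t') (h : DiamLE G t) : DiamLE G t' := by
  intro o₁ o₂ h1 h2
  obtain ⟨L, hL, hf⟩ := h o₁ o₂ h1 h2
  exact ⟨L, hL.trans htt, hf⟩

lemma exists_diamLE [Fintype V] (G : SimpleGraph V) : ∃ t, DiamLE G t := by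
  classical
  have h : Rep G (Sym2 V) := by
    intro π
    refine ⟨fun u e => if u ∈ e then π e else 0, fun u v huv => ?_⟩
    rw [Finset.sum_eq_single s(u, v)]
    · simp only [Sym2.mem_iff, true_or, or_true, if_true]
      rcases zmod2 (π s(u, v)) with h | h <;> rw [h] <;> simp
    · intro e _ he
      by_cases h1 : u ∈ e
      · by_cases h2 : v ∈ e
        · exact absurd ((Sym2.mem_and_mem_iff huv.ne).1 ⟨h1, h2⟩) he
        · simp [h2]
      · simp [h1]
    · intro h; exact absurd (mem_univ _) h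
  exact ⟨_, diamLE_of_rep G _ (rep_equiv G (Fintype.equivFin _) h)⟩

end Pool.Agent.H329S
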